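import Pool.Agent.T2H77.RG.Stm

/-! # Package AD of project RG -/

set_option autoImplicit false

namespace Pool.Agent.T2H77.RG

open Classical in
theorem AD_summable_ite {V : Type} (f : V → ℝ) (hf : Summable fun z => f z ^ 2) (S : Set V) :
    Summable fun z => if z ∈ S then f z ^ 2 else 0 := by
  refine Summable.of_nonneg_of_le (fun z => ?_) (fun z => ?_) hf
  · split_ifs
    · positivity
    · exact le_rfl
  · split_ifs
    · exact le_rfl
    · positivity

open Classical in
theorem pAD (h1 : S_G2) (h2 : S_KS) (h3 : S_WR) : S_AD := by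
  intro W V _ B C J lam k hk x y hxy hx hy
  obtain ⟨hsym, hsq, -, -⟩ := h2 W V B C J lam k hk
  have hyx : C.G.Adj y x := hxy.symm
  set m : ℝ := k x y / k x x with hm
  have hv : ∀ v ∈ Sol C J lam, v y = m * v x := by
    intro v hv
    have h := h3 W V B C J lam x y hxy (k x) (hk.mem x) v hv
    rw [hm]
    field_simp
    linarith
  have hky : ∀ z, k y z = m * k x z := by
    intro z
    rw [hsym y z, hv (k z) (hk.mem z), hsym z x]
  have hkyy : k y y = m ^ 2 * k x x := by
    rw [hky y, hm]
    field_simp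
  have hm0 : m ≠ 0 := by
    intro h
    rw [hkyy, h] at hy
    simp at hy
  have hsum := (hk.mem x).1
  have hQyx : Q C k y x = (∑' z, if z ∈ Br C y x then k x z ^ 2 else 0) / k x x := by
    rw [Q]
    have h4 : (∑' z, if z ∈ Br C y x then k y z ^ 2 else 0) =
        m ^ 2 * ∑' z, if z ∈ Br C y x then k x z ^ 2 else 0 := by
      rw [← tsum_mul_left]
      refine tsum_congr fun z => ?_
      split_ifs
      · rw [hky z]; ring
      · simp
    rw [h4, hkyy]
    field_simp
  rw [hQyx, Q, ← add_div, ← Summable.tsum_add (AD_summable_ite (k x) hsum (Br C x y))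
    (AD_summable_ite (k x) hsum (Br C y x))]
  have h5 : ∀ z, ((if z ∈ Br C x y then k x z ^ 2 else 0) + (if z ∈ Br C y x then k x z ^ 2 else 0)) =
      k x z ^ 2 := by
    intro z
    rcases (h1 W V B C x y hxy).1 z with ⟨ha, hb⟩ | ⟨ha, hb⟩
    · rw [if_pos ha, if_neg hb, add_zero]
    · rw [if_neg ha, if_pos hb, zero_add]
  rw [tsum_congr h5, hsq x, div_self hx]

end Pool.Agent.T2H77.RG
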