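import Pool.Agent.T2H77.RG.Stm

/-! # Project RG, package CN: counting in the complete bipartite graph -/

set_option autoImplicit false

namespace Pool.Agent.T2H77.RG

open Classical in
theorem pCN : S_CN := by
  intro r g hg hgr X ⟨j0, hj0⟩
  set A : Finset (Fin r) := X.toLeft with hAdef
  set D : Finset (Fin g) := X.toRight with hDdef
  have hmA : ∀ i, i ∈ A ↔ Sum.inl i ∈ X := fun i => Finset.mem_toLeft
  have hmD : ∀ j, j ∈ D ↔ Sum.inr j ∈ X := fun j => Finset.mem_toRight
  have hcard : A.card + D.card = X.card := Finset.card_toLeft_add_card_toRight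
  have hA : A.card ≤ r := by simpa using Finset.card_le_univ A
  have hD : D.card ≤ g := by simpa using Finset.card_le_univ D
  have hD1 : 1 ≤ D.card := Finset.card_pos.2 ⟨j0, (hmD j0).2 hj0⟩
  have hP : 2 * (A.card * D.card) ≤
      ((X ×ˢ X).filter fun p : (Fin r ⊕ Fin g) × (Fin r ⊕ Fin g) =>
        (completeBipartiteGraph (Fin r) (Fin g)).Adj p.1 p.2).card := by
    let f1 : Fin r × Fin g → (Fin r ⊕ Fin g) × (Fin r ⊕ Fin g) := fun p => (Sum.inl p.1, Sum.inr p.2)
    let f2 : Fin r × Fin g → (Fin r ⊕ Fin g) × (Fin r ⊕ Fin g) := fun p => (Sum.inr p.2, Sum.inl p.1)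
    have hf1 : Function.Injective f1 := by
      rintro ⟨a, b⟩ ⟨c, d⟩ h
      simp only [f1, Prod.mk.injEq, Sum.inl.injEq, Sum.inr.injEq] at h
      exact Prod.ext h.1 h.2
    have hf2 : Function.Injective f2 := by
      rintro ⟨a, b⟩ ⟨c, d⟩ h
      simp only [f2, Prod.mk.injEq, Sum.inl.injEq, Sum.inr.injEq] at h
      exact Prod.ext h.2 h.1
    have hdis : Disjoint ((A ×ˢ D).image f1) ((A ×ˢ D).image f2) := by
      rw [Finset.disjoint_left]
      rintro p hp1 hp2
      obtain ⟨a, -, rfl⟩ := Finset.mem_image.1 hp1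
      obtain ⟨b, -, hb⟩ := Finset.mem_image.1 hp2
      simp [f1, f2] at hb
    have h1 : ((A ×ˢ D).image f1 ∪ (A ×ˢ D).image f2).card = 2 * (A.card * D.card) := by
      rw [Finset.card_union_of_disjoint hdis, Finset.card_image_of_injective _ hf1,
        Finset.card_image_of_injective _ hf2, Finset.card_product]
      ring
    rw [← h1]
    refine Finset.card_le_card fun p hp => ?_
    rw [Finset.mem_filter, Finset.mem_product]
    rcases Finset.mem_union.1 hp with hp | hp
    · obtain ⟨a, ha, rfl⟩ := Finset.mem_image.1 hp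
      rw [Finset.mem_product] at ha
      exact ⟨⟨(hmA _).1 ha.1, (hmD _).1 ha.2⟩, by simp [f1]⟩
    · obtain ⟨a, ha, rfl⟩ := Finset.mem_image.1 hp
      rw [Finset.mem_product] at ha
      exact ⟨⟨(hmD _).1 ha.2, (hmA _).1 ha.1⟩, by simp [f2]⟩
  have hL : r - A.card ≤ (Finset.univ.filter fun t : Fin r ⊕ Fin g =>
      t ∉ X ∧ ∃ s ∈ X, (completeBipartiteGraph (Fin r) (Fin g)).Adj s t).card := by
    have h1 : (Finset.univ \ A).card = r - A.card := by
      rw [Finset.card_sdiff_of_subset (Finset.subset_univ A), Finset.card_univ, Fintype.card_fin]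
    rw [← h1, ← Finset.card_image_of_injective (Finset.univ \ A) (Sum.inl_injective (β := Fin g))]
    refine Finset.card_le_card fun t ht => ?_
    obtain ⟨i, hi, rfl⟩ := Finset.mem_image.1 ht
    rw [Finset.mem_sdiff, hmA] at hi
    rw [Finset.mem_filter]
    exact ⟨Finset.mem_univ _, hi.2, Sum.inr j0, hj0, by simp⟩
  rcases Nat.eq_zero_or_pos A.card with h0 | h0
  · rw [h0] at hL hP hcard
    omega
  · obtain ⟨i0, hi0⟩ := Finset.card_pos.1 h0
    have hi0X := (hmA i0).1 hi0
    have hU : r + g - X.card ≤ (Finset.univ.filter fun t : Fin r ⊕ Fin g =>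
        t ∉ X ∧ ∃ s ∈ X, (completeBipartiteGraph (Fin r) (Fin g)).Adj s t).card := by
      have h1 : (Finset.univ \ X).card = r + g - X.card := by
        rw [Finset.card_sdiff_of_subset (Finset.subset_univ X), Finset.card_univ, Fintype.card_sum,
          Fintype.card_fin, Fintype.card_fin]
      rw [← h1]
      refine Finset.card_le_card fun t ht => ?_
      rw [Finset.mem_sdiff] at ht
      rw [Finset.mem_filter]
      refine ⟨Finset.mem_univ _, ht.2, ?_⟩
      rcases t with i | j
      · exact ⟨Sum.inr j0, hj0, by simp⟩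
      · exact ⟨Sum.inl i0, hi0X, by simp⟩
    have key : 2 * (A.card + D.card) ≤ A.card * D.card + (r + g) := by
      obtain ⟨a, ha⟩ : ∃ a, A.card = a := ⟨_, rfl⟩
      obtain ⟨d, hd⟩ : ∃ d, D.card = d := ⟨_, rfl⟩
      rw [ha] at h0 hA ⊢
      rw [hd] at hD hD1 ⊢
      rcases Nat.lt_or_ge a 2 with h2 | h2
      · obtain rfl : a = 1 := by omega
        omega
      · rcases Nat.lt_or_ge d 2 with h3 | h3
        · obtain rfl : d = 1 := by omega
          omega
        · obtain ⟨a', rfl⟩ : ∃ a', a = a' + 2 := ⟨a - 2, by omega⟩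
          obtain ⟨d', rfl⟩ : ∃ d', d = d' + 2 := ⟨d - 2, by omega⟩
          nlinarith [Nat.zero_le (a' * d')]
    have hXle : X.card ≤ r + g := by omega
    omega

end Pool.Agent.T2H77.RG
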