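import Pool.Agent.T2H77.RG.Stm

/-! # Project RG, package DE: decomposition of the square norm of the kernel at a vertex -/

set_option autoImplicit false

namespace Pool.Agent.T2H77.RG

open Classical in
theorem pDE (h1 : S_GU) (h2 : S_KS) : S_DE := by
  intro W V _ B C J lam k hk x hx
  obtain ⟨-, hnorm, -, -⟩ := h2 W V B C J lam k hk
  have hs : Summable fun z => k x z ^ 2 := (hk.mem x).1
  have hsy : ∀ y, Summable fun z => if z ∈ Br C x y then k x z ^ 2 else 0 := by
    intro y
    refine Summable.of_nonneg_of_le (fun z => ?_) (fun z => ?_) hs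
    · split_ifs
      · exact sq_nonneg _
      · exact le_rfl
    · split_ifs
      · exact le_rfl
      · exact sq_nonneg _
  have e1 : ∑ y ∈ C.N x, Q C k x y =
      (∑ y ∈ C.N x, ∑' z, if z ∈ Br C x y then k x z ^ 2 else 0) / k x x := by
    rw [Finset.sum_div]
    rfl
  have e2 : (∑ y ∈ C.N x, ∑' z, if z ∈ Br C x y then k x z ^ 2 else 0) =
      ∑' z, ∑ y ∈ C.N x, if z ∈ Br C x y then k x z ^ 2 else 0 :=
    (Summable.tsum_finsetSum fun y _ => hsy y).symm
  have e3 : ∀ z, (∑ y ∈ C.N x, if z ∈ Br C x y then k x z ^ 2 else 0) =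
      if z = x then 0 else k x z ^ 2 := by
    intro z
    by_cases hzx : z = x
    · subst hzx
      rw [if_pos rfl]
      refine Finset.sum_eq_zero fun y _ => ?_
      rw [if_neg]
      intro hc
      simp only [Br, Set.mem_ofPred_eq, SimpleGraph.dist_self] at hc
      omega
    · rw [if_neg hzx]
      obtain ⟨y0, ⟨ha, hb⟩, hun⟩ := h1 W V B C x z (Ne.symm hzx)
      rw [Finset.sum_eq_single y0]
      · rw [if_pos hb]
      · intro y hy hne
        rw [if_neg]
        intro hc
        exact hne (hun y ⟨(Cover.mem_N C).1 hy, hc⟩)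
      · intro hc
        exact absurd ((Cover.mem_N C).2 ha) hc
  have e4 : (∑' z, k x z ^ 2) = k x x ^ 2 + ∑' z, if z = x then 0 else k x z ^ 2 :=
    hs.tsum_eq_add_tsum_ite x
  rw [e1, e2]
  simp only [e3]
  rw [hnorm x] at e4
  have e6 : (∑' z, if z = x then 0 else k x z ^ 2) = k x x - k x x ^ 2 := by linarith
  rw [e6]
  field_simp

end Pool.Agent.T2H77.RG
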