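import Pool.Agent.T2H77.RG.Stm

/-!
# Project RG: package DK (deck transformations)
-/

set_option autoImplicit false

namespace Pool.Agent.T2H77.RG

variable {W V : Type} [Finite W] {B : SimpleGraph W}

/-- the graph of the lift of the identity which maps `x` to `x'` -/
inductive DK_Rel (C : Cover B V) (x x' : V) : V → V → Prop
  | base : DK_Rel C x x' x x'
  | step (w w' z z' : V) : DK_Rel C x x' w w' → C.G.Adj w z → C.G.dist x w < C.G.dist x z →
      C.G.Adj w' z' → C.ty z' = C.ty z → DK_Rel C x x' z z'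

theorem DK_ty {C : Cover B V} {x x' z z' : V} (hx : C.ty x = C.ty x') (h : DK_Rel C x x' z z') :
    C.ty z' = C.ty z := by
  cases h with
  | base => exact hx.symm
  | step w w' z z' _ _ _ _ h => exact h

theorem DK_par (h : S_GU) (C : Cover B V) (x z : V) (hz : z ≠ x) :
    ∃ w, C.G.Adj z w ∧ C.G.dist x w < C.G.dist x z := by
  obtain ⟨w, ⟨h1, h2⟩, -⟩ := h W V B C z x hz
  exact ⟨w, h1, h2⟩

theorem DK_par_unique (h : S_GU) (C : Cover B V) (x z : V) {w w' : V}
    (h1 : C.G.Adj z w) (h2 : C.G.dist x w < C.G.dist x z) (h3 : C.G.Adj z w') (h4 : C.G.dist x w' < C.G.dist x z) :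
    w = w' := by
  have hz : z ≠ x := by
    rintro rfl
    rw [SimpleGraph.dist_self] at h2
    omega
  exact (h W V B C z x hz).unique ⟨h1, h2⟩ ⟨h3, h4⟩

theorem DK_ex (h : S_GU) (C : Cover B V) (x x' : V) (hx : C.ty x = C.ty x') (n : ℕ) :
    ∀ z, C.G.dist x z = n → ∃ z', DK_Rel C x x' z z' := by
  induction n using Nat.strong_induction_on with
  | _ n ih =>
    intro z hz
    by_cases hzx : z = x
    · rw [hzx]
      exact ⟨x', DK_Rel.base⟩
    · obtain ⟨w, h1, h2⟩ := DK_par h C x z hzx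
      obtain ⟨w', hw'⟩ := ih (C.G.dist x w) (by omega) w rfl
      have hty := DK_ty hx hw'
      have hB : B.Adj (C.ty w') (C.ty z) := by
        rw [hty]
        exact C.adj w z h1.symm
      obtain ⟨z', ⟨h3, h4⟩, -⟩ := C.lift w' (C.ty z) hB
      exact ⟨z', DK_Rel.step w w' z z' hw' h1.symm h2 h3 h4⟩

theorem DK_uniq (h : S_GU) (C : Cover B V) (x x' : V) (hx : C.ty x = C.ty x') (n : ℕ) :
    ∀ z z' z'', C.G.dist x z = n → DK_Rel C x x' z z' → DK_Rel C x x' z z'' → z' = z'' := by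
  induction n using Nat.strong_induction_on with
  | _ n ih =>
    intro z z' z'' hz h1 h2
    cases h1 with
    | base =>
      cases h2 with
      | base => rfl
      | step w w' _ _ _ _ hd _ _ =>
        rw [SimpleGraph.dist_self] at hd
        omega
    | step w w' _ _ r1 a1 d1 b1 c1 =>
      cases h2 with
      | base =>
        rw [SimpleGraph.dist_self] at d1
        omega
      | step v v' _ _ r2 a2 d2 b2 c2 =>
        have e := DK_par_unique h C x z a1.symm d1 a2.symm d2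
        subst e
        have e2 := ih (C.G.dist x w) (by omega) w w' v' rfl r1 r2
        subst e2
        have hB : B.Adj (C.ty w') (C.ty z) := by
          rw [DK_ty hx r1]
          exact C.adj w z a1
        exact (C.lift w' (C.ty z) hB).unique ⟨b1, c1⟩ ⟨b2, c2⟩

theorem DK_map (h : S_GU) (C : Cover B V) (x x' : V) (hx : C.ty x = C.ty x') :
    ∃ φ : V → V, φ x = x' ∧ (∀ z, C.ty (φ z) = C.ty z) ∧ ∀ z w, C.G.Adj z w → C.G.Adj (φ z) (φ w) := by
  choose φ hφ using fun z => DK_ex h C x x' hx _ z rfl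
  have hu : ∀ z z', DK_Rel C x x' z z' → φ z = z' := fun z z' hz =>
    DK_uniq h C x x' hx _ z _ _ rfl (hφ z) hz
  have key : ∀ w z, C.G.Adj w z → C.G.dist x w < C.G.dist x z → C.G.Adj (φ w) (φ z) := by
    intro w z ha hd
    have hB : B.Adj (C.ty (φ w)) (C.ty z) := by
      rw [DK_ty hx (hφ w)]
      exact C.adj w z ha
    obtain ⟨z', ⟨h3, h4⟩, -⟩ := C.lift (φ w) (C.ty z) hB
    rw [hu z z' (DK_Rel.step w (φ w) z z' (hφ w) ha hd h3 h4)]
    exact h3
  refine ⟨φ, hu x x' DK_Rel.base, fun z => DK_ty hx (hφ z), ?_⟩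
  intro z w ha
  have hne : C.G.dist x z ≠ C.G.dist x w := C.tree.dist_ne_of_adj x ha
  rcases lt_or_gt_of_ne hne with hlt | hlt
  · exact key z w ha hlt
  · exact (key w z ha.symm hlt).symm

theorem DK_id (h : S_GU) (C : Cover B V) (x : V) (f : V → V) (h0 : f x = x) (h1 : ∀ z, C.ty (f z) = C.ty z)
    (h2 : ∀ z w, C.G.Adj z w → C.G.Adj (f z) (f w)) (n : ℕ) : ∀ z, C.G.dist x z = n → f z = z := by
  induction n using Nat.strong_induction_on with
  | _ n ih =>
    intro z hz
    by_cases hzx : z = x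
    · rw [hzx, h0]
    · obtain ⟨w, a, d⟩ := DK_par h C x z hzx
      have hw := ih (C.G.dist x w) (by omega) w rfl
      have h3 := h2 w z a.symm
      rw [hw] at h3
      exact (C.lift w (C.ty z) (C.adj w z a.symm)).unique ⟨h3, h1 z⟩ ⟨a.symm, rfl⟩

theorem pDK (h : S_GU) : S_DK := by
  intro W V _ B C x x' hx
  obtain ⟨φ, f0, f1, f2⟩ := DK_map h C x x' hx
  obtain ⟨ψ, g0, g1, g2⟩ := DK_map h C x' x hx.symm
  have e1 : ∀ z, ψ (φ z) = z := fun z => DK_id h C x (fun z => ψ (φ z)) (by rw [f0, g0])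
    (fun z => by rw [g1, f1]) (fun z w a => g2 _ _ (f2 _ _ a)) _ z rfl
  have e2 : ∀ z, φ (ψ z) = z := fun z => DK_id h C x' (fun z => φ (ψ z)) (by rw [g0, f0])
    (fun z => by rw [f1, g1]) (fun z w a => f2 _ _ (g2 _ _ a)) _ z rfl
  refine ⟨⟨φ, ψ, e1, e2⟩, f0, ⟨f1, ?_⟩⟩
  intro z w
  constructor
  · intro a
    have := g2 _ _ a
    simp only [Equiv.coe_fn_mk] at this
    rwa [e1, e1] at this
  · exact f2 z w

end Pool.Agent.T2H77.RG
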