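import Pool.Agent.T2H77.RG.Stm

/-! # Package EN of project RG -/

set_option autoImplicit false

namespace Pool.Agent.T2H77.RG

open Classical in
theorem EN_summable_ite {V : Type} (f : V → ℝ) (hf : Summable fun z => f z ^ 2) (S : Set V) :
    Summable fun z => if z ∈ S then f z ^ 2 else 0 := by
  refine Summable.of_nonneg_of_le (fun z => ?_) (fun z => ?_) hf
  · split_ifs
    · positivity
    · exact le_rfl
  · split_ifs
    · exact le_rfl
    · positivity

theorem EN_summable_mul {V : Type} (f g : V → ℝ) (hf : Summable fun z => f z ^ 2)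
    (hg : Summable fun z => g z ^ 2) : Summable fun z => f z * g z := by
  refine Summable.of_norm_bounded (hf.add hg) fun z => ?_
  rw [Real.norm_eq_abs, abs_mul]
  nlinarith [sq_nonneg (|f z| - |g z|), sq_abs (f z), sq_abs (g z), sq_nonneg (f z), sq_nonneg (g z)]

theorem EN_smul {W V : Type} [Finite W] {B : SimpleGraph W} (C : Cover B V) (J : Jacobi B) (lam : ℝ)
    (c : ℝ) (u : V → ℝ) (hu : u ∈ Sol C J lam) : (fun z => c * u z) ∈ Sol C J lam := by
  refine ⟨?_, ?_⟩
  · have h1 := hu.1.mul_left (c ^ 2)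
    refine h1.congr fun z => ?_
    ring
  · intro z
    have h1 := hu.2 z
    have h2 : ∑ y ∈ C.N z, wt C J z y * (c * u y) = c * ∑ y ∈ C.N z, wt C J z y * u y := by
      rw [Finset.mul_sum]
      exact Finset.sum_congr rfl fun y _ => by ring
    simp only
    rw [h2]
    linear_combination c * h1

open Classical in
theorem pEN (_h1 : S_G2) (h2 : S_KS) (h3 : S_GL) : S_EN := by
  intro W V _ B C J lam k hk x y hyx hy hx v hv
  obtain ⟨hsym, hsq, -, hzero⟩ := h2 W V B C J lam k hk
  set c : ℝ := v x / k x x with hc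
  have hcx : c * k x x = v x := by
    rw [hc]
    field_simp
  set g : V → ℝ := fun z => c * k x z with hg
  have hgS : g ∈ Sol C J lam := EN_smul C J lam c (k x) (hk.mem x)
  have hw := h3 W V B C J lam y x hyx v hv g hgS (hzero y hy v hv) (hzero y hy g hgS)
    (by rw [hg]; simp only; rw [hcx])
  set w : V → ℝ := fun z => if z ∈ Br C y x then v z else g z with hwd
  have hxBr : x ∈ Br C y x := by
    change C.G.dist x x < C.G.dist x y
    rw [SimpleGraph.dist_self, SimpleGraph.dist_comm, SimpleGraph.dist_eq_one_iff_adj.mpr hyx]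
    exact one_pos
  have hwx : w x = v x := by
    rw [hwd]
    simp only
    rw [if_pos hxBr]
  have hrep := hk.rep x w hw
  rw [hwx] at hrep
  have hksum := (hk.mem x).1
  have hwsum := hw.1
  have hmul := EN_summable_mul (k x) w hksum hwsum
  have hpos : 0 ≤ ∑' z, (w z - c * k x z) ^ 2 := tsum_nonneg fun z => by positivity
  have hexp : ∑' z, (w z - c * k x z) ^ 2 = ∑' z, w z ^ 2 - c ^ 2 * k x x := by
    have e1 : ∀ z, (w z - c * k x z) ^ 2 = w z ^ 2 - 2 * c * (k x z * w z) + c ^ 2 * k x z ^ 2 := by
      intro z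
      ring
    rw [tsum_congr e1, Summable.tsum_add (hwsum.sub (hmul.mul_left (2 * c))) (hksum.mul_left (c ^ 2)),
      Summable.tsum_sub hwsum (hmul.mul_left (2 * c)), tsum_mul_left, tsum_mul_left, hrep, hsq x,
      ← hcx]
    ring
  rw [hexp] at hpos
  have hF := EN_summable_ite (k x) hksum (Br C y x)
  have hA := EN_summable_ite v hv.1 (Br C y x)
  have hsplit : ∑' z, w z ^ 2 = (∑' z, if z ∈ Br C y x then v z ^ 2 else 0) +
      c ^ 2 * (k x x - ∑' z, if z ∈ Br C y x then k x z ^ 2 else 0) := by
    rw [← hsq x, ← Summable.tsum_sub hksum hF, ← tsum_mul_left, ← Summable.tsum_add hA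
      ((hksum.sub hF).mul_left (c ^ 2))]
    refine tsum_congr fun z => ?_
    by_cases hz : z ∈ Br C y x
    · rw [hwd]
      simp only
      rw [if_pos hz, if_pos hz, if_pos hz]
      ring
    · rw [hwd]
      simp only
      rw [if_neg hz, if_neg hz, if_neg hz, hg]
      simp only
      ring
  rw [hsplit] at hpos
  linarith

end Pool.Agent.T2H77.RG
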