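import Pool.Agent.T2H77.RG.Stm

/-!
# Package FR: the inequality at a vertex where all solutions vanish
-/

set_option autoImplicit false

namespace Pool.Agent.T2H77.RG

open Classical in
/-- the branches at `y` are disjoint -/
lemma FR_sum_le {W V : Type} [Finite W] {B : SimpleGraph W} (h1 : S_GU) (C : Cover B V) (y : V)
    (I : Finset V) (hI : ∀ x ∈ I, C.G.Adj y x) (f : V → ℝ) (hf : ∀ z, 0 ≤ f z)
    (hs : Summable f) :
    ∑ x ∈ I, ∑' z, (if z ∈ Br C y x then f z else 0) ≤ ∑' z, f z := by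
  have hsum : ∀ x, Summable (fun z => if z ∈ Br C y x then f z else 0) := by
    intro x
    refine Summable.of_nonneg_of_le (fun z => ?_) (fun z => ?_) hs
    · split_ifs
      · exact hf z
      · exact le_rfl
    · split_ifs
      · exact le_rfl
      · exact hf z
  rw [← Summable.tsum_finsetSum (fun x _ => hsum x)]
  refine Summable.tsum_le_tsum (fun z => ?_) (summable_sum fun x _ => hsum x) hs
  by_cases h : ∃ x ∈ I, z ∈ Br C y x
  · obtain ⟨x0, hx0, hz⟩ := h
    rw [Finset.sum_eq_single x0]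
    · rw [if_pos hz]
    · intro x hx hne
      rw [if_neg]
      intro hz'
      have hyz : y ≠ z := by
        rintro rfl
        have h5 : C.G.dist y x0 < C.G.dist y y := hz
        rw [SimpleGraph.dist_self] at h5
        exact absurd h5 (Nat.not_lt_zero _)
      exact hne ((h1 W V B C y z hyz).unique ⟨hI x hx, hz'⟩ ⟨hI x0 hx0, hz⟩)
    · intro h5
      exact absurd hx0 h5
  · push Not at h
    rw [Finset.sum_eq_zero]
    · exact hf z
    · intro x hx
      rw [if_neg (h x hx)]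

open Classical in
theorem pFR (h1 : S_GU) (h2 : S_G2) (h3 : S_KS) (h4 : S_EN) : S_FR := by
  intro W V _ B C J lam k hk y hy hex
  obtain ⟨kS1, kS2, kS3, kS4⟩ := h3 W V B C J lam k hk
  obtain ⟨I, hI⟩ : ∃ I, I = (C.N y).filter (fun x => k x x ≠ 0) := ⟨_, rfl⟩
  rw [← hI]
  have hIa : ∀ x ∈ I, C.G.Adj y x := by
    intro x hx
    rw [hI, Finset.mem_filter, Cover.mem_N] at hx
    exact hx.1
  have hIk : ∀ x ∈ I, 0 < k x x := by
    intro x hx
    rw [hI, Finset.mem_filter] at hx
    exact lt_of_le_of_ne (kS3 x) (Ne.symm hx.2)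
  have hsq : ∀ x, Summable fun z => k x z ^ 2 := fun x => (hk.mem x).1
  have hsm : ∀ (x : V) (S : Set V), Summable fun z => if z ∈ S then k x z ^ 2 else 0 := by
    intro x S
    refine Summable.of_nonneg_of_le (fun z => ?_) (fun z => ?_) (hsq x)
    · split_ifs
      · exact sq_nonneg _
      · exact le_rfl
    · split_ifs
      · exact le_rfl
      · exact sq_nonneg _
  obtain ⟨In, hIn0⟩ : ∃ In : V → ℝ, ∀ x, In x = ∑' z, if z ∈ Br C y x then k x z ^ 2 else 0 :=
    ⟨_, fun _ => rfl⟩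
  have hIn : ∀ x ∈ I, k x x ^ 2 ≤ In x := by
    intro x hx
    have hmem : x ∈ Br C y x := by
      show C.G.dist x x < C.G.dist x y
      rw [SimpleGraph.dist_self, SimpleGraph.dist_eq_one_iff_adj.2 (hIa x hx).symm]
      norm_num
    have h5 := (hsm x (Br C y x)).le_tsum x (fun z _ => by
      split_ifs
      · exact sq_nonneg _
      · exact le_rfl)
    rw [if_pos hmem] at h5
    rw [hIn0]
    exact h5
  have hInp : ∀ x ∈ I, 0 < In x := fun x hx =>
    lt_of_lt_of_le (pow_pos (hIk x hx) 2) (hIn x hx)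
  have hQ : ∀ x ∈ I, Q C k x y = (k x x - In x) / k x x := by
    intro x hx
    have e1 : ∑' z, k x z ^ 2 = (∑' z, if z ∈ Br C x y then k x z ^ 2 else 0) + In x := by
      rw [hIn0, ← Summable.tsum_add (hsm x _) (hsm x _)]
      refine tsum_congr fun z => ?_
      rcases (h2 W V B C x y (hIa x hx).symm).1 z with ⟨g1, g2⟩ | ⟨g1, g2⟩
      · rw [if_pos g1, if_neg g2, add_zero]
      · rw [if_neg g1, if_pos g2, zero_add]
    rw [kS2 x] at e1
    unfold Q
    congr 1
    linarith
  obtain ⟨a, ha⟩ : ∃ a : V → ℝ, ∀ x, a x = wt C J y x := ⟨_, fun _ => rfl⟩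
  have hap : ∀ x ∈ I, 0 < a x := by
    intro x hx
    rw [ha]
    exact J.pos _ ((SimpleGraph.mem_edgeSet B).2 (C.adj y x (hIa x hx)))
  obtain ⟨F, hF⟩ : ∃ F : V → ℝ, ∀ x, F x = In x / k x x ^ 2 := ⟨_, fun _ => rfl⟩
  have hFp : ∀ x ∈ I, 0 < F x := by
    intro x hx
    rw [hF]
    exact div_pos (hInp x hx) (pow_pos (hIk x hx) 2)
  obtain ⟨T, hT⟩ : ∃ T : ℝ, T = ∑ x ∈ I, a x ^ 2 / F x := ⟨_, rfl⟩
  have hne : I.Nonempty := by
    obtain ⟨x, hx1, hx2⟩ := hex
    exact ⟨x, by rw [hI, Finset.mem_filter, Cover.mem_N]; exact ⟨hx1, hx2⟩⟩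
  have hTp : 0 < T := by
    rw [hT]
    exact Finset.sum_pos (fun x hx => div_pos (pow_pos (hap x hx) 2) (hFp x hx)) hne
  have key : ∀ i ∈ I, a i ^ 2 / F i / T ≤ Q C k i y := by
    intro i hi
    have hc := hIk i hi
    have hIni := hInp i hi
    -- the equation at y
    have hiy : k i y = 0 := kS4 y hy (k i) (hk.mem i)
    have heq : ∑ x ∈ I, a x * k i x = 0 := by
      have h5 := (hk.mem i).2 y
      rw [hiy, mul_zero, mul_zero, zero_add] at h5
      rw [← h5, hI, Finset.sum_filter]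
      refine Finset.sum_congr rfl fun x hx => ?_
      split_ifs with h6
      · rw [ha]
      · push Not at h6
        rw [kS4 x h6 (k i) (hk.mem i), mul_zero]
    rw [← Finset.add_sum_erase I _ hi] at heq
    -- the energies
    have hE : ∀ x ∈ I, k i x ^ 2 * F x ≤ ∑' z, if z ∈ Br C y x then k i z ^ 2 else 0 := by
      intro x hx
      have h5 := h4 W V B C J lam k hk x y (hIa x hx) hy (hIk x hx).ne' (k i) (hk.mem i)
      rw [← hIn0] at h5
      refine le_trans (le_of_eq ?_) h5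
      rw [hF, div_pow]
      ring
    have hS := FR_sum_le h1 C y I hIa (fun z => k i z ^ 2) (fun z => sq_nonneg _) (hsq i)
    rw [kS2 i, ← Finset.add_sum_erase I _ hi, ← hIn0] at hS
    have hS2 : ∑ x ∈ I.erase i, k i x ^ 2 * F x ≤ k i i - In i := by
      have h5 : ∑ x ∈ I.erase i, k i x ^ 2 * F x ≤
          ∑ x ∈ I.erase i, ∑' z, (if z ∈ Br C y x then k i z ^ 2 else 0) :=
        Finset.sum_le_sum fun x hx => hE x (Finset.mem_of_mem_erase hx)
      linarith
    have hT2 : ∑ x ∈ I.erase i, a x ^ 2 / F x = T - a i ^ 2 / F i := by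
      rw [hT, ← Finset.add_sum_erase I _ hi]
      ring
    have hCS := Finset.sum_mul_sq_le_sq_mul_sq (I.erase i) (fun x => a x / Real.sqrt (F x))
      (fun x => k i x * Real.sqrt (F x))
    have e1 : ∑ x ∈ I.erase i, a x / Real.sqrt (F x) * (k i x * Real.sqrt (F x)) =
        ∑ x ∈ I.erase i, a x * k i x := by
      refine Finset.sum_congr rfl fun x hx => ?_
      have h5 := Real.sqrt_pos.2 (hFp x (Finset.mem_of_mem_erase hx))
      field_simp
    have e2 : ∑ x ∈ I.erase i, (a x / Real.sqrt (F x)) ^ 2 = T - a i ^ 2 / F i := by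
      rw [← hT2]
      refine Finset.sum_congr rfl fun x hx => ?_
      rw [div_pow, Real.sq_sqrt (hFp x (Finset.mem_of_mem_erase hx)).le]
    have e3 : ∑ x ∈ I.erase i, (k i x * Real.sqrt (F x)) ^ 2 =
        ∑ x ∈ I.erase i, k i x ^ 2 * F x := by
      refine Finset.sum_congr rfl fun x hx => ?_
      rw [mul_pow, Real.sq_sqrt (hFp x (Finset.mem_of_mem_erase hx)).le]
    rw [e1, e2, e3] at hCS
    have e4 : ∑ x ∈ I.erase i, a x * k i x = -(a i * k i i) := by linarith
    rw [e4, neg_sq, mul_pow] at hCS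
    have hTa : 0 ≤ T - a i ^ 2 / F i := by
      rw [← hT2]
      exact Finset.sum_nonneg fun x hx =>
        div_nonneg (sq_nonneg _) (hFp x (Finset.mem_of_mem_erase hx)).le
    have h6 : a i ^ 2 * k i i ^ 2 ≤ (T - a i ^ 2 / F i) * (k i i - In i) :=
      hCS.trans (mul_le_mul_of_nonneg_left hS2 hTa)
    have h7 : a i ^ 2 / F i * In i = a i ^ 2 * k i i ^ 2 := by
      rw [hF]
      field_simp
    rw [hQ i hi, div_le_div_iff₀ hTp hc]
    nlinarith
  have hfin : ∑ x ∈ I, a x ^ 2 / F x / T = 1 := by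
    rw [← Finset.sum_div, ← hT, div_self hTp.ne']
  rw [← hfin]
  exact Finset.sum_le_sum key

end Pool.Agent.T2H77.RG
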