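import Pool.Agent.T2H77.RG.Stm

/-! # Project RG, package G2: the two branches at an edge -/

set_option autoImplicit false

namespace Pool.Agent.T2H77.RG

theorem pG2 (h : S_GU) : S_G2 := by
  intro W V _ B C x y hxy
  have hdiff : ∀ u v w : V, C.G.Adj v w →
      C.G.dist u v = C.G.dist u w + 1 ∨ C.G.dist u w = C.G.dist u v + 1 := by
    intro u v w hvw
    have h1 := C.tree.dist_ne_of_adj u hvw
    have h2 := hvw.diff_dist_adj (u := u)
    omega
  constructor
  · intro z
    have h1 := hdiff z x y hxy
    simp only [Br, Set.mem_ofPred_eq]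
    omega
  · intro z w hz hw hzw
    simp only [Br, Set.mem_ofPred_eq] at hz hw
    have h1 := hdiff z x y hxy
    have h2 := hdiff w x y hxy
    have h3 := hdiff x z w hzw
    have h4 := hdiff y z w hzw
    rw [C.G.dist_comm (u := x) (v := z), C.G.dist_comm (u := x) (v := w)] at h3
    rw [C.G.dist_comm (u := y) (v := z), C.G.dist_comm (u := y) (v := w)] at h4
    by_cases hzy : z = y
    · subst hzy
      refine ⟨rfl, ?_⟩
      rw [C.G.dist_self] at h1 h4 hz
      have h0 : C.G.dist w x = 0 := by omega
      exact (C.tree.connected.dist_eq_zero_iff).1 h0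
    · exfalso
      obtain ⟨w', ⟨hw1, hw2⟩, -⟩ := h W V B C z y hzy
      have hzx : z ≠ x := by
        rintro rfl
        rw [C.G.dist_self] at hz
        omega
      obtain ⟨w0, -, hun⟩ := h W V B C z x hzx
      simp only [Br, Set.mem_ofPred_eq] at hw2
      have h5 := hdiff w' x y hxy
      rw [C.G.dist_comm (u := y) (v := w'), C.G.dist_comm (u := y) (v := z)] at hw2
      have e1 : w' = w0 := hun w' ⟨hw1, by
        simp only [Br, Set.mem_ofPred_eq]
        rw [C.G.dist_comm (u := x) (v := w'), C.G.dist_comm (u := x) (v := z)]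
        omega⟩
      have e2 : w = w0 := hun w ⟨hzw, by
        simp only [Br, Set.mem_ofPred_eq]
        rw [C.G.dist_comm (u := x) (v := w), C.G.dist_comm (u := x) (v := z)]
        omega⟩
      rw [e1, ← e2] at hw2
      omega

end Pool.Agent.T2H77.RG
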