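import Pool.Agent.T2H77.RG.Stm

/-! # Project RG, package GL: gluing two solutions at a vertex -/

set_option autoImplicit false

namespace Pool.Agent.T2H77.RG

open Classical in
theorem pGL (h : S_G2) : S_GL := by
  intro W V _ B C J lam x y hxy u hu v hv hux hvx huv
  obtain ⟨-, hcross⟩ := h W V B C x y hxy
  refine ⟨?_, fun z => ?_⟩
  · refine Summable.of_nonneg_of_le (fun z => sq_nonneg _) (fun z => ?_) (hu.1.add hv.1)
    dsimp only
    split_ifs
    · nlinarith [sq_nonneg (v z)]
    · nlinarith [sq_nonneg (u z)]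
  · dsimp only
    by_cases hz : z ∈ Br C x y
    · rw [if_pos hz, ← hu.2 z]
      congr 1
      refine Finset.sum_congr rfl fun t ht => ?_
      rw [Cover.mem_N] at ht
      by_cases htb : t ∈ Br C x y
      · rw [if_pos htb]
      · obtain ⟨-, htx⟩ := hcross z t hz htb ht
        rw [if_neg htb, htx, hux, hvx]
    · rw [if_neg hz, ← hv.2 z]
      congr 1
      refine Finset.sum_congr rfl fun t ht => ?_
      rw [Cover.mem_N] at ht
      by_cases htb : t ∈ Br C x y
      · obtain ⟨hty, -⟩ := hcross t z htb hz ht.symm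
        rw [if_pos htb, hty, huv]
      · rw [if_neg htb]

end Pool.Agent.T2H77.RG
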