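import Pool.Agent.T2H77.RG.Stm

/-! # Package GU: the branches at a vertex -/

set_option autoImplicit false

namespace Pool.Agent.T2H77.RG

variable {W V : Type} [Finite W] {B : SimpleGraph W}

theorem GU_path (C : Cover B V) {x y z : V} (h : C.G.Adj x y) (hd : C.G.dist z y < C.G.dist z x) :
    ∃ p : C.G.Walk y z, (SimpleGraph.Walk.cons h p).IsPath := by
  obtain ⟨p, hp⟩ := C.tree.connected.exists_walk_length_eq_dist y z
  have h1 := p.isPath_of_length_eq_dist hp
  refine ⟨p, (SimpleGraph.Walk.cons_isPath_iff h p).2 ⟨h1, fun hx => ?_⟩⟩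
  classical
  have h2 : C.G.dist x z ≤ (p.dropUntil x hx).length := SimpleGraph.dist_le _
  have h3 : (p.dropUntil x hx).length ≤ p.length := p.length_dropUntil_le hx
  rw [SimpleGraph.dist_comm (u := z) (v := y), SimpleGraph.dist_comm (u := z) (v := x)] at hd
  omega

theorem pGU : S_GU := by
  intro W V _ B C x z hxz
  obtain ⟨p, hp⟩ := C.tree.connected.exists_walk_length_eq_dist x z
  cases p with
  | nil => exact absurd rfl hxz
  | @cons _ y _ h q =>
    refine ⟨y, ⟨h, ?_⟩, ?_⟩
    · change C.G.dist z y < C.G.dist z x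
      rw [SimpleGraph.dist_comm (u := z) (v := x), ← hp, SimpleGraph.Walk.length_cons,
        SimpleGraph.dist_comm (u := z) (v := y)]
      have := SimpleGraph.dist_le q
      omega
    · rintro y' ⟨h', hd'⟩
      have hd : C.G.dist z y < C.G.dist z x := by
        rw [SimpleGraph.dist_comm (u := z) (v := x), ← hp, SimpleGraph.Walk.length_cons,
          SimpleGraph.dist_comm (u := z) (v := y)]
        have := SimpleGraph.dist_le q
        omega
      obtain ⟨p1, hp1⟩ := GU_path C h hd
      obtain ⟨p2, hp2⟩ := GU_path C h' hd'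
      have h3 := C.tree.IsAcyclic.path_unique ⟨_, hp2⟩ ⟨_, hp1⟩
      have h4 : SimpleGraph.Walk.cons h' p2 = SimpleGraph.Walk.cons h p1 := congrArg Subtype.val h3
      have h5 := congrArg SimpleGraph.Walk.support h4
      simp only [SimpleGraph.Walk.support_cons] at h5
      have h6 : p2.support = p1.support := (List.cons.inj h5).2
      have h7 : p2.support.head? = p1.support.head? := by rw [h6]
      cases p1 <;> cases p2 <;> simp_all
end Pool.Agent.T2H77.RG
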