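import Pool.Agent.T2H77.RG.Stm

/-! # Package IV: invariance of the reproducing kernel -/

set_option autoImplicit false

namespace Pool.Agent.T2H77.RG

variable {W V : Type} [Finite W] {B : SimpleGraph W}

theorem IV_symm {C : Cover B V} {φ : V ≃ V} (h : Aut C φ) : Aut C φ.symm := by
  refine ⟨fun z => ?_, fun z w => ?_⟩
  · rw [← h.ty (φ.symm z), Equiv.apply_symm_apply]
  · rw [← h.adj (φ.symm z) (φ.symm w), Equiv.apply_symm_apply, Equiv.apply_symm_apply]

theorem IV_sol {C : Cover B V} {J : Jacobi B} {lam : ℝ} {φ : V ≃ V} (h : Aut C φ) {u : V → ℝ}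
    (hu : u ∈ Sol C J lam) : (fun z => u (φ z)) ∈ Sol C J lam := by
  refine ⟨(φ.summable_iff (f := fun z => u z ^ 2)).2 hu.1, fun x => ?_⟩
  have h1 := hu.2 (φ x)
  have h2 : ∑ y ∈ C.N (φ x), wt C J (φ x) y * u y = ∑ y ∈ C.N x, wt C J x y * u (φ y) := by
    symm
    refine Finset.sum_bij (fun y _ => φ y) (fun y hy => ?_) (fun y _ z _ he => φ.injective he)
      (fun y hy => ⟨φ.symm y, ?_, φ.apply_symm_apply y⟩) (fun y _ => ?_)
    · rw [Cover.mem_N] at hy ⊢
      exact (h.adj x y).2 hy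
    · rw [Cover.mem_N] at hy ⊢
      rw [← h.adj x (φ.symm y), Equiv.apply_symm_apply]
      exact hy
    · unfold wt
      rw [h.ty, h.ty]
  rw [h2, h.ty] at h1
  exact h1

theorem IV_dist_le {C : Cover B V} {φ : V ≃ V} (h : Aut C φ) (z w : V) :
    C.G.dist (φ z) (φ w) ≤ C.G.dist z w := by
  obtain ⟨p, hp⟩ := C.tree.isConnected.exists_walk_length_eq_dist z w
  let f : C.G →g C.G := ⟨φ, fun {a b} hab => (h.adj a b).2 hab⟩
  rw [← hp, ← SimpleGraph.Walk.length_map f p]
  exact SimpleGraph.dist_le (p.map f)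

theorem IV_dist {C : Cover B V} {φ : V ≃ V} (h : Aut C φ) (z w : V) :
    C.G.dist (φ z) (φ w) = C.G.dist z w := by
  refine le_antisymm (IV_dist_le h z w) ?_
  have h1 := IV_dist_le (IV_symm h) (φ z) (φ w)
  rwa [Equiv.symm_apply_apply, Equiv.symm_apply_apply] at h1

open Classical in
theorem pIV (hKS : S_KS) : S_IV := by
  intro W V _ B C J lam k hk φ h
  have hs := (hKS W V B C J lam k hk).1
  have key : ∀ x z, k (φ x) (φ z) = k x z := by
    intro x z
    -- test `z ↦ k (φ x) (φ z)` and `k x` with solutions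
    have h1 : (fun z => k (φ x) (φ z)) ∈ Sol C J lam := IV_sol h (hk.mem (φ x))
    have h2 : ∀ u ∈ Sol C J lam, ∑' z, k (φ x) (φ z) * u z = u x := by
      intro u hu
      have h3 := hk.rep (φ x) (fun z => u (φ.symm z)) (IV_sol (IV_symm h) hu)
      simp only [Equiv.symm_apply_apply] at h3
      rw [← h3, ← φ.tsum_eq (fun z => k (φ x) z * u (φ.symm z))]
      exact tsum_congr fun z => by rw [Equiv.symm_apply_apply]
    have h4 := h2 (k z) (hk.mem z)
    have h5 := hk.rep z _ h1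
    rw [← hs z x, ← h4]
    refine Eq.trans h5.symm (tsum_congr fun w => mul_comm _ _)
  refine ⟨key, fun x y => ?_⟩
  unfold Q
  rw [key]
  congr 1
  rw [← φ.tsum_eq (fun z => if z ∈ Br C (φ x) (φ y) then k (φ x) z ^ 2 else 0)]
  refine tsum_congr fun z => ?_
  have hb : φ z ∈ Br C (φ x) (φ y) ↔ z ∈ Br C x y := by
    unfold Br
    simp only [Set.mem_setOf_eq]
    rw [IV_dist h, IV_dist h]
  simp only [hb, key]

end Pool.Agent.T2H77.RG
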