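import Pool.Agent.T2H77.RG.Stm

/-! # Package IX: the index inequality -/

set_option autoImplicit false

namespace Pool.Agent.T2H77.RG

open Classical in
/-- the counting behind the index inequality -/
lemma IX_count {W : Type} [Fintype W] (B : SimpleGraph W) (X : Finset W) (hX : X.Nonempty)
    (q : W → W → ℝ)
    (h1 : ∀ s ∈ X, ∑ t, (if B.Adj s t then q s t else 0) < 1)
    (h2 : ∀ s ∈ X, ∀ t ∈ X, B.Adj s t → q s t + q t s = 1)
    (h3 : ∀ t, t ∉ X → (∃ s ∈ X, B.Adj s t) → 1 ≤ ∑ s ∈ X, (if B.Adj s t then q s t else 0)) :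
    ((X ×ˢ X).filter fun p => B.Adj p.1 p.2).card +
      2 * (Finset.univ.filter fun t => t ∉ X ∧ ∃ s ∈ X, B.Adj s t).card < 2 * X.card := by
  have e1 : ∑ s ∈ X, ∑ t, (if B.Adj s t then q s t else 0) < X.card := by
    have := Finset.sum_lt_sum_of_nonempty hX h1
    simpa using this
  have e2 : ∑ s ∈ X, ∑ t, (if B.Adj s t then q s t else 0) =
      ∑ s ∈ X, ∑ t ∈ X, (if B.Adj s t then q s t else 0) +
      ∑ t ∈ Xᶜ, ∑ s ∈ X, (if B.Adj s t then q s t else 0) := by
    rw [Finset.sum_comm (s := Xᶜ), ← Finset.sum_add_distrib]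
    refine Finset.sum_congr rfl fun s _ => ?_
    rw [Finset.sum_add_sum_compl]
  have e3 : 2 * ∑ s ∈ X, ∑ t ∈ X, (if B.Adj s t then q s t else 0) =
      (((X ×ˢ X).filter fun p => B.Adj p.1 p.2).card : ℝ) := by
    have e4 : ∑ s ∈ X, ∑ t ∈ X, (if B.Adj s t then q s t else 0) =
        ∑ s ∈ X, ∑ t ∈ X, (if B.Adj s t then q t s else 0) := by
      rw [Finset.sum_comm]
      refine Finset.sum_congr rfl fun s _ => Finset.sum_congr rfl fun t _ => ?_
      simp only [B.adj_comm t s]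
    rw [two_mul]
    nth_rewrite 2 [e4]
    rw [← Finset.sum_add_distrib, Finset.card_filter, Finset.sum_product]
    push_cast
    refine Finset.sum_congr rfl fun s hs => ?_
    rw [← Finset.sum_add_distrib]
    refine Finset.sum_congr rfl fun t ht => ?_
    by_cases h : B.Adj s t
    · simp only [h, if_true]
      rw [h2 s hs t ht h]
    · simp only [h, if_false, add_zero]
  have e5 : ((Finset.univ.filter fun t => t ∉ X ∧ ∃ s ∈ X, B.Adj s t).card : ℝ) ≤
      ∑ t ∈ Xᶜ, ∑ s ∈ X, (if B.Adj s t then q s t else 0) := by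
    have e6 : (Finset.univ.filter fun t => t ∉ X ∧ ∃ s ∈ X, B.Adj s t) =
        Xᶜ.filter fun t => ∃ s ∈ X, B.Adj s t := by
      ext t
      simp
    rw [e6, Finset.card_filter]
    push_cast
    refine Finset.sum_le_sum fun t ht => ?_
    rw [Finset.mem_compl] at ht
    by_cases h : ∃ s ∈ X, B.Adj s t
    · rw [if_pos h]
      exact h3 t ht h
    · rw [if_neg h]
      refine le_of_eq (Finset.sum_eq_zero fun s hs => ?_).symm
      rw [if_neg fun h' => h ⟨s, hs, h'⟩]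
  have e7 : (((X ×ˢ X).filter fun p => B.Adj p.1 p.2).card : ℝ) +
      2 * ((Finset.univ.filter fun t => t ∉ X ∧ ∃ s ∈ X, B.Adj s t).card : ℝ) < 2 * (X.card : ℝ) := by
    linarith
  exact_mod_cast e7

theorem pIX (h1 : S_DK) (h2 : S_KS) (h3 : S_IV) (h4 : S_DE) (h5 : S_AD) (h6 : S_FR) : S_IX := by
  classical
  intro W V _ B C J lam k hk X hX hne
  obtain ⟨-, -, hk0, -⟩ := h2 W V B C J lam k hk
  -- invariance
  have inv1 : ∀ x x', C.ty x = C.ty x' → k x' x' = k x x := by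
    intro x x' hx
    obtain ⟨φ, hφ, hA⟩ := h1 W V B C x x' hx
    have := (h3 W V B C J lam k hk φ hA).1 x x
    rwa [hφ] at this
  have hX' : ∀ x, C.ty x ∈ X ↔ k x x ≠ 0 := by
    intro x
    rw [hX]
    constructor
    · rintro ⟨x', h, h'⟩
      rwa [inv1 x' x h]
    · intro h
      exact ⟨x, rfl, h⟩
  have inv2 : ∀ x y x' y', C.G.Adj x y → C.G.Adj x' y' → C.ty x = C.ty x' → C.ty y = C.ty y' →
      Q C k x y = Q C k x' y' := by
    intro x y x' y' ha ha' hx hy
    obtain ⟨φ, hφ, hA⟩ := h1 W V B C x x' hx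
    have h7 := (h3 W V B C J lam k hk φ hA).2 x y
    have h8 : φ y = y' := by
      refine (C.lift x' (C.ty y') (C.adj _ _ ha')).unique ⟨?_, ?_⟩ ⟨ha', rfl⟩
      · rw [← hφ, hA.adj]
        exact ha
      · rw [hA.ty, hy]
    rw [← h7, hφ, h8]
  obtain ⟨q, hq⟩ : ∃ q : W → W → ℝ, ∀ x y, C.G.Adj x y → q (C.ty x) (C.ty y) = Q C k x y := by
    refine ⟨fun s t => if h : ∃ p : V × V, C.G.Adj p.1 p.2 ∧ C.ty p.1 = s ∧ C.ty p.2 = t then
      Q C k h.choose.1 h.choose.2 else 0, fun x y ha => ?_⟩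
    have h : ∃ p : V × V, C.G.Adj p.1 p.2 ∧ C.ty p.1 = C.ty x ∧ C.ty p.2 = C.ty y :=
      ⟨(x, y), ha, rfl, rfl⟩
    dsimp only
    rw [dif_pos h]
    exact inv2 _ _ _ _ h.choose_spec.1 ha h.choose_spec.2.1 h.choose_spec.2.2
  -- sums over the neighbours
  have nb : ∀ (x : V) (f : W → ℝ), ∑ y ∈ C.N x, f (C.ty y) = ∑ t, (if B.Adj (C.ty x) t then f t else 0) := by
    intro x f
    rw [← Finset.sum_filter]
    refine Finset.sum_bij (fun y _ => C.ty y) ?_ ?_ ?_ ?_
    · intro y hy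
      rw [C.mem_N] at hy
      rw [Finset.mem_filter]
      exact ⟨Finset.mem_univ _, C.adj _ _ hy⟩
    · intro y hy z hz h
      rw [C.mem_N] at hy hz
      exact (C.lift x (C.ty y) (C.adj _ _ hy)).unique ⟨hy, rfl⟩ ⟨hz, h.symm⟩
    · intro t ht
      rw [Finset.mem_filter] at ht
      obtain ⟨y, hy, -⟩ := C.lift x t ht.2
      exact ⟨y, by rw [C.mem_N]; exact hy.1, hy.2⟩
    · intro y _
      rfl
  refine IX_count B X hne q ?_ ?_ ?_
  · intro s hs
    obtain ⟨x, rfl, hx⟩ := (hX s).1 hs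
    rw [← nb x (fun t => q (C.ty x) t)]
    have h7 := h4 W V B C J lam k hk x hx
    have h8 : ∑ y ∈ C.N x, q (C.ty x) (C.ty y) = ∑ y ∈ C.N x, Q C k x y :=
      Finset.sum_congr rfl fun y hy => hq x y (by rwa [C.mem_N] at hy)
    rw [h8, h7]
    have h9 : 0 < k x x := lt_of_le_of_ne (hk0 x) (Ne.symm hx)
    linarith
  · intro s hs t ht hst
    obtain ⟨x, rfl, hx⟩ := (hX s).1 hs
    obtain ⟨y, ⟨hxy, rfl⟩, -⟩ := C.lift x t hst
    rw [hq x y hxy, hq y x hxy.symm]
    exact h5 W V B C J lam k hk x y hxy hx ((hX' y).1 ht)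
  · intro t ht hst
    obtain ⟨s, hs, hst⟩ := hst
    obtain ⟨x, rfl, hx⟩ := (hX s).1 hs
    obtain ⟨y, ⟨hxy, rfl⟩, -⟩ := C.lift x t hst
    have hy : k y y = 0 := by
      by_contra h
      exact ht ((hX' y).2 h)
    have h7 := h6 W V B C J lam k hk y hy ⟨x, hxy.symm, hx⟩
    refine h7.trans (le_of_eq ?_)
    rw [Finset.sum_filter]
    have h8 : ∑ x ∈ C.N y, (if k x x ≠ 0 then Q C k x y else 0) =
        ∑ x ∈ C.N y, (fun s => if s ∈ X then q s (C.ty y) else 0) (C.ty x) := by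
      refine Finset.sum_congr rfl fun z hz => ?_
      rw [C.mem_N] at hz
      dsimp only
      by_cases h : k z z = 0
      · rw [if_neg (by simpa using h), if_neg fun h' => (hX' z).1 h' h]
      · rw [if_pos h, if_pos ((hX' z).2 h), hq z y hz.symm]
    rw [h8, nb y (fun s => if s ∈ X then q s (C.ty y) else 0)]
    rw [← Finset.sum_subset (Finset.subset_univ X)]
    · refine Finset.sum_congr rfl fun s hs => ?_
      rw [if_pos hs]
      simp only [B.adj_comm (C.ty y) s]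
    · intro s _ hs
      rw [if_neg hs, ite_self]

end Pool.Agent.T2H77.RG
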