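import Pool.Agent.T2H77.RG.Stm

/-! # Project RG, package KE: the reproducing kernel -/

set_option autoImplicit false

namespace Pool.Agent.T2H77.RG

section

variable {W V : Type} [Finite W] {B : SimpleGraph W}

/-- the real Hilbert space -/
private abbrev KE_H (V : Type) := lp (fun _ : V => ℝ) 2

private lemma KE_cont (x : V) : Continuous fun f : KE_H V => (f : V → ℝ) x :=
  (continuous_apply x).comp (lp.uniformContinuous_coe (E := fun _ : V => ℝ) (p := 2)).continuous

private lemma KE_sq (f : KE_H V) : Summable fun x => (f : V → ℝ) x ^ 2 := by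
  have h := (memℓp_gen_iff (p := 2) (by norm_num)).mp (lp.memℓp f)
  refine h.congr fun x => ?_
  simp

private lemma KE_mem (u : V → ℝ) (hu : Summable fun x => u x ^ 2) : Memℓp u 2 := by
  rw [memℓp_gen_iff (by norm_num)]
  refine hu.congr fun x => ?_
  simp

/-- the solutions as a subspace of the Hilbert space -/
private def KE_E (C : Cover B V) (J : Jacobi B) (lam : ℝ) : Submodule ℝ (KE_H V) where
  carrier := {f | ∀ x, J.b (C.ty x) * (f : V → ℝ) x + ∑ y ∈ C.N x, wt C J x y * (f : V → ℝ) y = lam * (f : V → ℝ) x}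
  add_mem' := by
    intro f g hf hg x
    have h1 := hf x
    have h2 := hg x
    simp only [lp.coeFn_add, Pi.add_apply, mul_add, Finset.sum_add_distrib]
    linarith
  zero_mem' := by
    intro x
    simp
  smul_mem' := by
    intro a f hf x
    have h1 := hf x
    simp only [lp.coeFn_smul, Pi.smul_apply, smul_eq_mul]
    have h2 : ∑ y ∈ C.N x, wt C J x y * (a * (f : V → ℝ) y) = a * ∑ y ∈ C.N x, wt C J x y * (f : V → ℝ) y := by
      rw [Finset.mul_sum]
      refine Finset.sum_congr rfl fun y _ => ?_
      ring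
    rw [h2]
    linear_combination a * h1

private lemma KE_closed (C : Cover B V) (J : Jacobi B) (lam : ℝ) :
    IsClosed ((KE_E C J lam : Submodule ℝ (KE_H V)) : Set (KE_H V)) := by
  have h1 : ((KE_E C J lam : Submodule ℝ (KE_H V)) : Set (KE_H V)) = ⋂ x, {f : KE_H V |
      J.b (C.ty x) * (f : V → ℝ) x + ∑ y ∈ C.N x, wt C J x y * (f : V → ℝ) y = lam * (f : V → ℝ) x} := by
    ext f
    simp only [Set.mem_iInter]
    rfl
  rw [h1]
  refine isClosed_iInter fun x => ?_
  refine isClosed_eq ?_ ?_
  · refine (continuous_const.mul (KE_cont x)).add ?_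
    exact continuous_finsetSum _ fun y _ => continuous_const.mul (KE_cont y)
  · exact continuous_const.mul (KE_cont x)

end

theorem pKE : S_KE := by
  classical
  intro W V _ B C J lam
  haveI hcomp : CompleteSpace (KE_E C J lam) := (KE_closed C J lam).completeSpace_coe
  let P : KE_H V → KE_E C J lam := fun f => (KE_E C J lam).orthogonalProjectionOnto f
  refine ⟨fun x => ((P (lp.single 2 x (1 : ℝ)) : KE_H V) : V → ℝ), ?_, ?_⟩
  · intro x
    exact ⟨KE_sq _, (P (lp.single 2 x (1 : ℝ))).2⟩
  · intro x u hu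
    let U : KE_H V := ⟨u, KE_mem u hu.1⟩
    have hU : U ∈ KE_E C J lam := hu.2
    have h1 := Submodule.inner_orthogonalProjectionOnto_eq_of_mem_right (K := KE_E C J lam) ⟨U, hU⟩
      (lp.single 2 x (1 : ℝ))
    rw [lp.inner_single_left] at h1
    have h2 : inner ℝ (P (lp.single 2 x (1 : ℝ))) (⟨U, hU⟩ : KE_E C J lam) =
        ∑' z, ((P (lp.single 2 x (1 : ℝ)) : KE_H V) : V → ℝ) z * u z := by
      rw [Submodule.coe_inner, lp.inner_eq_tsum]
      congr 1
      funext z
      simp only [RCLike.inner_apply, conj_trivial]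
      rw [mul_comm]
    show ∑' z, ((P (lp.single 2 x (1 : ℝ)) : KE_H V) : V → ℝ) z * u z = u x
    rw [← h2]
    refine h1.trans ?_
    simp only [RCLike.inner_apply, conj_trivial, mul_one]
    rfl

end Pool.Agent.T2H77.RG
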