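import Pool.Agent.T2H77.RG.Stm

/-! # Package KS: first properties of the reproducing kernel -/

set_option autoImplicit false

namespace Pool.Agent.T2H77.RG

theorem pKS : S_KS := by
  intro W V _ B C J lam k hk
  have h1 : ∀ x, ∑' z, k x z ^ 2 = k x x := by
    intro x
    rw [← hk.rep x (k x) (hk.mem x)]
    exact tsum_congr fun z => sq _
  refine ⟨fun x y => ?_, h1, fun x => ?_, fun x hx u hu => ?_⟩
  · rw [← hk.rep y (k x) (hk.mem x), ← hk.rep x (k y) (hk.mem y)]
    exact tsum_congr fun z => mul_comm _ _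
  · rw [← h1 x]
    exact tsum_nonneg fun z => sq_nonneg _
  · have h2 : ∀ z, k x z = 0 := by
      intro z
      have h3 := h1 x
      rw [hx] at h3
      have h4 := (hasSum_zero_iff_of_nonneg fun z => sq_nonneg (k x z)).1
        (h3 ▸ (hk.mem x).1.hasSum)
      have h5 := congrFun h4 z
      exact pow_eq_zero_iff (two_ne_zero) |>.1 h5
    rw [← hk.rep x u hu]
    simp [h2]

end Pool.Agent.T2H77.RG
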