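import Pool.Agent.T2H77.RG.Stm

/-! # Project RG, package WR: Green's identity -/

set_option autoImplicit false

namespace Pool.Agent.T2H77.RG

section

variable {W V : Type} [Finite W] {B : SimpleGraph W}

private lemma WR_card (C : Cover B V) : ∃ K : ℕ, ∀ z, (C.N z).card ≤ K := by
  classical
  haveI := Fintype.ofFinite W
  refine ⟨Fintype.card W, fun z => ?_⟩
  refine Finset.card_le_card_of_injOn C.ty (fun _ _ => Finset.mem_univ _) ?_
  intro p hp q hq h
  have hp' : C.G.Adj z p := C.mem_N.mp hp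
  have hq' : C.G.Adj z q := C.mem_N.mp hq
  exact (C.lift z (C.ty p) (C.adj z p hp')).unique ⟨hp', rfl⟩ ⟨hq', h.symm⟩

open Classical in
private lemma WR_sum1 (C : Cover B V) (g : V → ℝ) (h0 : ∀ z, 0 ≤ g z) (hg : Summable g) :
    Summable (fun p : V × V => if C.G.Adj p.1 p.2 then g p.1 else 0) := by
  obtain ⟨K, hK⟩ := WR_card C
  have hnn : 0 ≤ (fun p : V × V => if C.G.Adj p.1 p.2 then g p.1 else 0) := by
    intro p
    simp only [Pi.zero_apply]
    split_ifs
    · exact h0 _
    · exact le_rfl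
  rw [summable_prod_of_nonneg hnn]
  have hs : ∀ z, ∀ w ∉ C.N z, (if C.G.Adj z w then g z else 0) = 0 := by
    intro z w hw
    rw [if_neg]
    intro h
    exact hw (C.mem_N.mpr h)
  constructor
  · intro z
    exact summable_of_ne_finset_zero (s := C.N z) (hs z)
  · have he : (fun z => ∑' w, if C.G.Adj z w then g z else 0) = fun z => ((C.N z).card : ℝ) * g z := by
      funext z
      rw [tsum_eq_sum (s := C.N z) (hs z)]
      rw [Finset.sum_congr rfl (g := fun _ => g z) (fun w hw => if_pos (C.mem_N.mp hw)), Finset.sum_const,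
        nsmul_eq_mul]
    show Summable (fun z => ∑' w, if C.G.Adj z w then g z else 0)
    rw [he]
    refine Summable.of_nonneg_of_le (fun z => mul_nonneg (Nat.cast_nonneg _) (h0 z)) (fun z => ?_)
      (hg.mul_left (K : ℝ))
    have : ((C.N z).card : ℝ) ≤ K := by exact_mod_cast hK z
    exact mul_le_mul_of_nonneg_right this (h0 z)

open Classical in
private lemma WR_sum2 (C : Cover B V) (g : V → ℝ) (h0 : ∀ z, 0 ≤ g z) (hg : Summable g) :
    Summable (fun p : V × V => if C.G.Adj p.1 p.2 then g p.2 else 0) := by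
  have h1 := (Equiv.prodComm V V).summable_iff.mpr (WR_sum1 C g h0 hg)
  refine h1.congr fun p => ?_
  simp only [Function.comp, Equiv.prodComm_apply, Prod.fst_swap, Prod.snd_swap, C.G.adj_comm p.2 p.1]

private lemma WR_wt_symm (C : Cover B V) (J : Jacobi B) (z w : V) : wt C J z w = wt C J w z := by
  unfold wt
  rw [Sym2.eq_swap]

private lemma WR_wt_pos (C : Cover B V) (J : Jacobi B) (z w : V) (h : C.G.Adj z w) : 0 < wt C J z w :=
  J.pos _ (C.adj z w h)

private lemma WR_wt_bd (C : Cover B V) (J : Jacobi B) : ∃ A : ℝ, 0 ≤ A ∧ ∀ z w, wt C J z w ≤ A := by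
  obtain ⟨A, hA⟩ := (Set.finite_range J.a).bddAbove
  refine ⟨|A|, abs_nonneg A, fun z w => ?_⟩
  exact (hA ⟨_, rfl⟩).trans (le_abs_self A)

open Classical in
/-- the Wronskian terms -/
private noncomputable def WR_F (C : Cover B V) (J : Jacobi B) (u v : V → ℝ) (p : V × V) : ℝ :=
  if C.G.Adj p.1 p.2 then wt C J p.1 p.2 * (u p.1 * v p.2 - v p.1 * u p.2) else 0

private lemma WR_F_summable (C : Cover B V) (J : Jacobi B) (u v : V → ℝ) (hu : Summable fun x => u x ^ 2)
    (hv : Summable fun x => v x ^ 2) : Summable (WR_F C J u v) := by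
  classical
  obtain ⟨A, hA0, hA⟩ := WR_wt_bd C J
  have hg : Summable (fun x => u x ^ 2 + v x ^ 2) := hu.add hv
  have h0 : ∀ z, 0 ≤ u z ^ 2 + v z ^ 2 := fun z => by positivity
  refine Summable.of_norm_bounded
    (((WR_sum1 C _ h0 hg).add (WR_sum2 C _ h0 hg)).mul_left A) ?_
  intro p
  unfold WR_F
  by_cases h : C.G.Adj p.1 p.2
  · rw [if_pos h, if_pos h, if_pos h, norm_mul, Real.norm_eq_abs, Real.norm_eq_abs,
      abs_of_pos (WR_wt_pos C J _ _ h)]
    refine mul_le_mul (hA _ _) ?_ (abs_nonneg _) hA0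
    rw [abs_le]
    constructor <;> nlinarith [sq_nonneg (u p.1 - v p.2), sq_nonneg (v p.1 - u p.2), sq_nonneg (u p.1 + v p.2),
      sq_nonneg (v p.1 + u p.2)]
  · rw [if_neg h, if_neg h, if_neg h]
    simp

private lemma WR_F_anti (C : Cover B V) (J : Jacobi B) (u v : V → ℝ) (z w : V) :
    WR_F C J u v (w, z) = -WR_F C J u v (z, w) := by
  classical
  unfold WR_F
  by_cases h : C.G.Adj z w
  · rw [if_pos h, if_pos h.symm]
    simp only
    rw [WR_wt_symm C J w z]
    ring
  · have h' : ¬ C.G.Adj w z := fun h' => h h'.symm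
    rw [if_neg h, if_neg h']
    simp

private lemma WR_F_row (C : Cover B V) (J : Jacobi B) (lam : ℝ) (u v : V → ℝ) (hu : u ∈ Sol C J lam)
    (hv : v ∈ Sol C J lam) (z : V) : ∑' w, WR_F C J u v (z, w) = 0 := by
  classical
  have hs : ∀ w ∉ C.N z, WR_F C J u v (z, w) = 0 := by
    intro w hw
    unfold WR_F
    rw [if_neg]
    intro h
    exact hw (C.mem_N.mpr h)
  rw [tsum_eq_sum (s := C.N z) hs]
  have h1 : ∑ w ∈ C.N z, WR_F C J u v (z, w) =
      u z * ∑ w ∈ C.N z, wt C J z w * v w - v z * ∑ w ∈ C.N z, wt C J z w * u w := by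
    rw [Finset.mul_sum, Finset.mul_sum, ← Finset.sum_sub_distrib]
    refine Finset.sum_congr rfl fun w hw => ?_
    unfold WR_F
    rw [if_pos (C.mem_N.mp hw)]
    ring
  rw [h1]
  have hu2 := hu.2 z
  have hv2 := hv.2 z
  have e1 : ∑ w ∈ C.N z, wt C J z w * v w = lam * v z - J.b (C.ty z) * v z := by linarith
  have e2 : ∑ w ∈ C.N z, wt C J z w * u w = lam * u z - J.b (C.ty z) * u z := by linarith
  rw [e1, e2]
  ring

end

theorem pWR (h : S_G2) : S_WR := by
  classical
  intro W V _ B C J lam x y hxy u hu v hv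
  have hF := WR_F_summable C J u v hu.1 hv.1
  have hyS : y ∈ Br C x y := by
    show C.G.dist y y < C.G.dist y x
    rw [SimpleGraph.dist_self]
    have : C.G.dist y x = 1 := SimpleGraph.dist_eq_one_iff_adj.mpr hxy.symm
    omega
  have hxS : x ∉ Br C x y := by
    show ¬ C.G.dist x y < C.G.dist x x
    rw [SimpleGraph.dist_self]
    omega
  let F1 : V × V → ℝ := fun p => if p.1 ∈ Br C x y then WR_F C J u v p else 0
  let F2 : V × V → ℝ := fun p => if p.1 ∈ Br C x y ∧ p.2 ∈ Br C x y then WR_F C J u v p else 0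
  have hF1 : Summable F1 := by
    refine Summable.of_norm_bounded hF.norm fun p => ?_
    show ‖if p.1 ∈ Br C x y then WR_F C J u v p else 0‖ ≤ _
    split_ifs
    · exact le_rfl
    · simp
  have hF2 : Summable F2 := by
    refine Summable.of_norm_bounded hF.norm fun p => ?_
    show ‖if p.1 ∈ Br C x y ∧ p.2 ∈ Br C x y then WR_F C J u v p else 0‖ ≤ _
    split_ifs
    · exact le_rfl
    · simp
  have t1 : ∑' p, F1 p = 0 := by
    rw [hF1.tsum_prod]
    have : ∀ z, ∑' w, F1 (z, w) = 0 := by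
      intro z
      by_cases hz : z ∈ Br C x y
      · have : (fun w => F1 (z, w)) = fun w => WR_F C J u v (z, w) := by
          funext w
          exact if_pos hz
        rw [this]
        exact WR_F_row C J lam u v hu hv z
      · have : (fun w => F1 (z, w)) = fun _ => 0 := by
          funext w
          exact if_neg hz
        rw [this, tsum_zero]
    simp only [this, tsum_zero]
  have t2 : ∑' p, F2 p = 0 := by
    have h1 : ∑' p, F2 p = ∑' p, F2 (Equiv.prodComm V V p) := ((Equiv.prodComm V V).tsum_eq F2).symm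
    have h2 : ∀ p : V × V, F2 (Equiv.prodComm V V p) = -F2 p := by
      rintro ⟨z, w⟩
      show (if w ∈ Br C x y ∧ z ∈ Br C x y then WR_F C J u v (w, z) else 0) =
        -(if z ∈ Br C x y ∧ w ∈ Br C x y then WR_F C J u v (z, w) else 0)
      by_cases hz : z ∈ Br C x y ∧ w ∈ Br C x y
      · rw [if_pos hz, if_pos hz.symm]
        exact WR_F_anti C J u v z w
      · rw [if_neg hz, if_neg (fun h' => hz h'.symm)]
        simp
    simp only [h2, tsum_neg] at h1
    linarith
  have t3 : ∑' p, (F1 p - F2 p) = F1 (y, x) - F2 (y, x) := by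
    refine tsum_eq_single (y, x) ?_
    rintro ⟨z, w⟩ hne
    show (if z ∈ Br C x y then WR_F C J u v (z, w) else 0) -
      (if z ∈ Br C x y ∧ w ∈ Br C x y then WR_F C J u v (z, w) else 0) = 0
    by_cases hz : z ∈ Br C x y
    · by_cases hw : w ∈ Br C x y
      · rw [if_pos hz, if_pos ⟨hz, hw⟩, sub_self]
      · rw [if_pos hz, if_neg (fun h' => hw h'.2), sub_zero]
        unfold WR_F
        rw [if_neg]
        intro hadj
        obtain ⟨e1, e2⟩ := (h W V B C x y hxy).2 z w hz hw hadj
        exact hne (by rw [e1, e2])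
    · rw [if_neg hz, if_neg (fun h' => hz h'.1), sub_zero]
  rw [(hF1.tsum_sub hF2), t1, t2, sub_zero] at t3
  have e1 : F1 (y, x) = WR_F C J u v (y, x) := if_pos hyS
  have e2 : F2 (y, x) = 0 := if_neg (fun h' => hxS h'.2)
  rw [e1, e2, sub_zero] at t3
  unfold WR_F at t3
  rw [if_pos hxy.symm] at t3
  have hpos := WR_wt_pos C J y x hxy.symm
  have t4 := (mul_eq_zero.mp t3.symm).resolve_left hpos.ne'
  simp only at t4
  linarith

end Pool.Agent.T2H77.RG
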