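import Mathlib

/-!
# Periodic Jacobi matrices on trees: definitions

`Cover B V`: a covering map from a tree (with vertex set `V`) to the finite graph `B`, that is, the
universal cover of `B`. `Jacobi B`: a Jacobi matrix on `B`. `lift C J`: its lift to the tree.
-/

set_option autoImplicit false

namespace Pool.Agent.T2H77.RG

variable {W V : Type} [Finite W] {B : SimpleGraph W}

/-- A covering map `ty` from a tree `G` to `B`: it maps adjacent vertices to adjacent vertices, and
for each edge of `B` at `ty x` there is exactly one edge of `G` at `x` above it. -/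
structure Cover (B : SimpleGraph W) (V : Type) where
  /-- the tree -/
  G : SimpleGraph V
  tree : G.IsTree
  /-- the covering map -/
  ty : V → W
  adj : ∀ x y, G.Adj x y → B.Adj (ty x) (ty y)
  lift : ∀ x t, B.Adj (ty x) t → ∃! y, G.Adj x y ∧ ty y = t

/-- A Jacobi matrix on `B`: real numbers `b` on the vertices and `a > 0` on the edges. -/
structure Jacobi (B : SimpleGraph W) where
  /-- the edge weights -/
  a : Sym2 W → ℝ
  pos : ∀ e ∈ B.edgeSet, 0 < a e
  /-- the vertex weights -/
  b : W → ℝ

lemma Cover.finite_nbr (C : Cover B V) (x : V) : (C.G.neighborSet x).Finite := by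
  refine Set.Finite.of_finite_image (f := C.ty) (Set.toFinite _) ?_
  intro y hy z hz h
  have hy' : C.G.Adj x y := hy
  have hz' : C.G.Adj x z := hz
  exact (C.lift x (C.ty y) (C.adj x y hy')).unique ⟨hy', rfl⟩ ⟨hz', h.symm⟩

/-- the finite set of the neighbours of `x` -/
noncomputable def Cover.N (C : Cover B V) (x : V) : Finset V := (C.finite_nbr x).toFinset

@[simp] lemma Cover.mem_N (C : Cover B V) {x y : V} : y ∈ C.N x ↔ C.G.Adj x y := by
  unfold Cover.N
  rw [Set.Finite.mem_toFinset]
  rfl

/-- The lift of `J` to the tree, `(H u)(x) = b(x) u(x) + ∑_{y ~ x} a(xy) u(y)`. -/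
noncomputable def lift (C : Cover B V) (J : Jacobi B) (u : V → ℂ) (x : V) : ℂ :=
  (J.b (C.ty x) : ℂ) * u x + ∑ y ∈ C.N x, (J.a s(C.ty x, C.ty y) : ℂ) * u y

/-- `u` is an eigenvector in `ℓ²` of the lift, with eigenvalue `lam`. -/
structure IsEigenvector (C : Cover B V) (J : Jacobi B) (lam : ℝ) (u : V → ℂ) : Prop where
  ne : u ≠ 0
  l2 : Summable fun x => ‖u x‖ ^ 2
  eq : ∀ x, lift C J u x = lam * u x

end Pool.Agent.T2H77.RG
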