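import Pool.Agent.T2H77.RG.Stm

/-! # Assembly -/

set_option autoImplicit false

namespace Pool.Agent.T2H77.RG

section

variable {W V : Type} [Finite W] {B : SimpleGraph W}

lemma re_sol {C : Cover B V} {J : Jacobi B} {lam : ℝ} {u : V → ℂ} (h : IsEigenvector C J lam u) :
    (fun x => (u x).re) ∈ Sol C J lam := by
  refine ⟨h.l2.of_nonneg_of_le (fun x => sq_nonneg _) fun x => ?_, fun x => ?_⟩
  · rw [← Complex.normSq_eq_norm_sq, Complex.normSq_apply, sq]
    nlinarith [mul_self_nonneg (u x).im]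
  · have h1 := congrArg Complex.re (h.eq x)
    unfold lift at h1
    rw [Complex.add_re, Complex.re_sum, Complex.re_ofReal_mul, Complex.re_ofReal_mul] at h1
    simpa only [Complex.re_ofReal_mul, wt] using h1

lemma im_sol {C : Cover B V} {J : Jacobi B} {lam : ℝ} {u : V → ℂ} (h : IsEigenvector C J lam u) :
    (fun x => (u x).im) ∈ Sol C J lam := by
  refine ⟨h.l2.of_nonneg_of_le (fun x => sq_nonneg _) fun x => ?_, fun x => ?_⟩
  · rw [← Complex.normSq_eq_norm_sq, Complex.normSq_apply, sq]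
    nlinarith [mul_self_nonneg (u x).re]
  · have h1 := congrArg Complex.im (h.eq x)
    unfold lift at h1
    rw [Complex.add_im, Complex.im_sum, Complex.im_ofReal_mul, Complex.im_ofReal_mul] at h1
    simpa only [Complex.im_ofReal_mul, wt] using h1

end

theorem fin (hKE : S_KE) (hKS : S_KS) (hIX : S_IX) (hCN : S_CN) (r g : ℕ) (hg : 2 ≤ g) (hr : g < r)
    (V : Type) (C : Cover (completeBipartiteGraph (Fin r) (Fin g)) V)
    (J : Jacobi (completeBipartiteGraph (Fin r) (Fin g))) (lam : ℝ) (u : V → ℂ)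
    (hu : IsEigenvector C J lam u) (x : V) (hx : (C.ty x).isRight) : u x = 0 := by
  classical
  by_contra hne
  obtain ⟨v, hv, hvx⟩ : ∃ v ∈ Sol C J lam, v x ≠ 0 := by
    by_cases h : (u x).re = 0
    · refine ⟨_, im_sol hu, fun h' => hne (Complex.ext h h')⟩
    · exact ⟨_, re_sol hu, h⟩
  obtain ⟨k, hk⟩ := hKE _ V _ C J lam
  obtain ⟨-, -, -, h4⟩ := hKS _ V _ C J lam k hk
  have hkx : k x x ≠ 0 := fun h => hvx (h4 x h v hv)
  obtain ⟨X, hX⟩ : ∃ X : Finset (Fin r ⊕ Fin g), X = Finset.univ.filter fun t => ∃ x, C.ty x = t ∧ k x x ≠ 0 :=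
    ⟨_, rfl⟩
  have hX' : ∀ t, t ∈ X ↔ ∃ x, C.ty x = t ∧ k x x ≠ 0 := by
    intro t
    rw [hX]
    simp
  obtain ⟨j, hj⟩ := Sum.isRight_iff.1 hx
  have hmem : Sum.inr j ∈ X := (hX' _).2 ⟨x, hj, hkx⟩
  have h5 := hIX _ V _ C J lam k hk X hX' ⟨_, hmem⟩
  have h6 := hCN r g hg hr X ⟨j, hmem⟩
  have h7 := h5.trans_le h6
  exact lt_irrefl _ (h7.trans_eq (by congr!))

end Pool.Agent.T2H77.RG
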