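import Pool.Agent.T2H77.RG.Defs

/-!
# Project RG (MP_1155ce_an): statements of the packages

Package `XX`: prove `theorem pXX (deps as hypotheses, in the order given) : S_XX` in the file
`Pool/Agent/T2H77/RG/XX.lean` (import this file, namespace `Pool.Agent.T2H77.RG`, lemmas prefixed
with `XX_` or private). A complete proof is in the doc comment of each statement.
-/

set_option autoImplicit false

namespace Pool.Agent.T2H77.RG

/-! ## Auxiliary definitions -/

section defs

variable {W V : Type} [Finite W] {B : SimpleGraph W}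

/-- the weight of the edge `xy` of the tree -/
noncomputable def wt (C : Cover B V) (J : Jacobi B) (x y : V) : ℝ := J.a s(C.ty x, C.ty y)

/-- the real square summable solutions of `H u = lam u` -/
def Sol (C : Cover B V) (J : Jacobi B) (lam : ℝ) : Set (V → ℝ) :=
  {u | (Summable fun x => u x ^ 2) ∧
    ∀ x, J.b (C.ty x) * u x + ∑ y ∈ C.N x, wt C J x y * u y = lam * u x}

/-- for adjacent `x, y`: the branch containing `y` when the edge `xy` is removed -/
def Br (C : Cover B V) (x y : V) : Set V := {z | C.G.dist z y < C.G.dist z x}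

/-- `k` is the reproducing kernel of the space `Sol` -/
structure IsKer (C : Cover B V) (J : Jacobi B) (lam : ℝ) (k : V → V → ℝ) : Prop where
  mem : ∀ x, k x ∈ Sol C J lam
  rep : ∀ x, ∀ u ∈ Sol C J lam, ∑' z, k x z * u z = u x

open Classical in
/-- for adjacent `x, y`: the part of the square norm of `k x` in the branch of `y` -/
noncomputable def Q (C : Cover B V) (k : V → V → ℝ) (x y : V) : ℝ :=
  (∑' z, if z ∈ Br C x y then k x z ^ 2 else 0) / k x x

/-- `φ` is an automorphism of the tree over `B` -/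
structure Aut (C : Cover B V) (φ : V ≃ V) : Prop where
  ty : ∀ z, C.ty (φ z) = C.ty z
  adj : ∀ z w, C.G.Adj (φ z) (φ w) ↔ C.G.Adj z w

end defs

/-! ## The tree -/

/-- GU (35 min). Branches at a vertex. Proof: a shortest walk from `x` to `z` starts with an edge `xy` and
`dist z y < dist z x`. If `y, y'` are two such neighbours: shortest walks `z → y`, `z → y'` extended by `x` are two paths from
`z` to `x` (`x` is not on them because all their vertices have distance `< dist z x` from `z`), so they are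
equal (`IsAcyclic.path_unique`, `IsAcyclic.eq_penultimate_of_adj_end` and neighbours in `Acyclic.lean`), `y = y'`. -/
def S_GU : Prop := ∀ (W V : Type) [Finite W] (B : SimpleGraph W) (C : Cover B V) (x z : V), x ≠ z →
  ∃! y, C.G.Adj x y ∧ z ∈ Br C x y

/-- G2 (30 min; dep S_GU). The two branches at an edge. (a): `IsTree.dist_ne_of_adj` (Mathlib). (b): put `D = dist z y`; by (a) and
`IsTree.dist_eq_dist_add_one_of_adj` the distances of adjacent vertices differ by exactly 1: `dist z x = D + 1`,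
`dist w y = dist w x + 1`, so `dist w x = D`, `dist w y = D + 1`. If `z ≠ y` then `z` has a neighbour `w'` with
`dist y w' = D - 1` (S_GU at `z` for the target `y`), so `dist x w' ≤ D`: both `w` and `w'` are neighbours of `z` closer to `x`,
`w = w'` by S_GU (`z ≠ x`), contradiction (`D - 1 ≠ D + 1`). So `z = y`, `D = 0`, `dist w x = 0`. -/
def S_G2 : Prop := ∀ (W V : Type) [Finite W] (B : SimpleGraph W) (C : Cover B V) (x y : V), C.G.Adj x y →
  (∀ z, (z ∈ Br C x y ∧ z ∉ Br C y x) ∨ (z ∉ Br C x y ∧ z ∈ Br C y x)) ∧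
  ∀ z w, z ∈ Br C x y → w ∉ Br C x y → C.G.Adj z w → z = y ∧ w = x

/-- DK (45 min; dep S_GU). Deck transformations. Define `φ` by recursion on `dist z x`: `φ x = x'`; for `z ≠ x` let `w` be the neighbour
of `z` closer to `x` (S_GU at `z`, target `x`), `φ z` = the neighbour of `φ w` of type `ty z`
(`C.lift (φ w) (ty z)`, `ty (φ w) = ty w`). Then `ty (φ z) = ty z`, and `φ` maps adjacent vertices to adjacent vertices (one of two
adjacent vertices is the `w` of the other, `IsTree.dist_ne_of_adj`). In the same way `ψ` with `ψ x' = x`. `ψ ∘ φ` preserves types and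
adjacency and fixes `x`: it is the identity by induction on `dist z x` (uniqueness in `C.lift`); the same for `φ ∘ ψ`. -/
def S_DK : Prop := ∀ (W V : Type) [Finite W] (B : SimpleGraph W) (C : Cover B V) (x x' : V), C.ty x = C.ty x' →
  ∃ φ : V ≃ V, φ x = x' ∧ Aut C φ

/-! ## The solutions -/

/-- KE (45 min). The reproducing kernel. Proof: the solutions form a closed subspace `E` of the Hilbert space
`lp (fun _ : V => ℝ) 2` (intersection of kernels of continuous linear forms, finite combinations of evaluations);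
`k x` = the orthogonal projection of `lp.single 2 x 1` on `E`. -/
def S_KE : Prop := ∀ (W V : Type) [Finite W] (B : SimpleGraph W) (C : Cover B V) (J : Jacobi B) (lam : ℝ),
  ∃ k : V → V → ℝ, IsKer C J lam k

/-- KS (15 min). `∑' z, k x z * k y z` is `k y x` and `k x y` (`rep` with `u = k y`, `mem`). -/
def S_KS : Prop := ∀ (W V : Type) [Finite W] (B : SimpleGraph W) (C : Cover B V) (J : Jacobi B) (lam : ℝ)
  (k : V → V → ℝ), IsKer C J lam k → (∀ x y, k x y = k y x) ∧ (∀ x, ∑' z, k x z ^ 2 = k x x) ∧ (∀ x, 0 ≤ k x x) ∧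
    (∀ x, k x x = 0 → ∀ u ∈ Sol C J lam, u x = 0)

/-- WR (50 min; dep S_G2). Green's identity. Proof: `S = Br x y`. For `z ∈ S`: `u z (H v) z - v z (H u) z = 0`, so
`∑_{w ~ z} wt z w (u z v w - v z u w) = 0`. Sum over `z ∈ S` (all sums converge absolutely: `wt` takes finitely many
values, `|u z v w| ≤ u z ^ 2 + v w ^ 2`, and each vertex has at most `|W|` neighbours): the pairs with `z, w ∈ S` cancel (antisymmetry), and by S_G2
the only pair with `w ∉ S` is `(y, x)`: `wt y x (u y v x - v y u x) = 0`, `wt > 0`. A possible way to do this: the function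
`F (z, w) = if Adj z w then wt z w (u z v w - v z u w) else 0` on `V × V` is summable and antisymmetric; `F * 1_{S × V}` has sum 0 (sum over
`w` first), `F * 1_{S × S}` has sum 0 (swap), the difference is `F (y, x)`. -/
def S_WR : Prop := ∀ (W V : Type) [Finite W] (B : SimpleGraph W) (C : Cover B V) (J : Jacobi B) (lam : ℝ) (x y : V),
  C.G.Adj x y → ∀ u ∈ Sol C J lam, ∀ v ∈ Sol C J lam, u x * v y = u y * v x

open Classical in
/-- GL (25 min; dep S_G2). Gluing at a vertex `x` where both solutions vanish. The function `w` = `u` on `Br x y`, `v` elsewhere (note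
`x ∉ Br x y`, `y ∈ Br x y`): square summable (`w^2 ≤ u^2 + v^2`). The equation at `z ∈ Br x y`: all neighbours are in `Br x y` except possibly
`x` (when `z = y`), where `v x = 0 = u x`. At `z ∉ Br x y`, `z ≠ x`: no neighbour in `Br x y` (S_G2 (b): then `z = x`). At `x`: the only neighbour in
`Br x y` is `y`, and `u y = v y`. -/
def S_GL : Prop := ∀ (W V : Type) [Finite W] (B : SimpleGraph W) (C : Cover B V) (J : Jacobi B) (lam : ℝ) (x y : V),
  C.G.Adj x y → ∀ u ∈ Sol C J lam, ∀ v ∈ Sol C J lam, u x = 0 → v x = 0 → u y = v y →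
    (fun z => if z ∈ Br C x y then u z else v z) ∈ Sol C J lam

/-- IV (35 min). Invariance. `u ∘ φ` is a solution if `u` is one (reindex `C.N (φ x) = image φ (C.N x)`); also for `φ.symm`. So
`z ↦ k (φ x) (φ z)` is a solution with `∑' z, k (φ x) (φ z) u z = ∑' w, k (φ x) w u (φ.symm w) = u x` for every solution `u`; then
`k (φ x) (φ z) = k x z` (S_KS: test both with `u = k z`). `φ` preserves distances (`SimpleGraph.Iso`, or walks), so `Br`, so `Q`. -/
def S_IV : Prop := ∀ (W V : Type) [Finite W] (B : SimpleGraph W) (C : Cover B V) (J : Jacobi B) (lam : ℝ)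
  (k : V → V → ℝ), IsKer C J lam k → ∀ φ : V ≃ V, Aut C φ →
    (∀ x z, k (φ x) (φ z) = k x z) ∧ ∀ x y, Q C k (φ x) (φ y) = Q C k x y

/-! ## The energy in the branches -/

/-- DE (25 min; deps S_GU, S_KS). `V = {x} ∪ ⋃_{y ~ x} Br x y` disjointly (S_GU), so `∑' z, k x z ^ 2 = k x x ^ 2 + ∑_y (...)`; divide by `k x x`. -/
def S_DE : Prop := ∀ (W V : Type) [Finite W] (B : SimpleGraph W) (C : Cover B V) (J : Jacobi B) (lam : ℝ)
  (k : V → V → ℝ), IsKer C J lam k → ∀ x, k x x ≠ 0 → ∑ y ∈ C.N x, Q C k x y = 1 - k x x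

/-- AD (30 min; deps S_G2, S_KS, S_WR). Put `m = k x y / k x x`. By S_WR with `u = k x`: `v y = m v x` for every solution `v`; with `v = k z`:
`k y z = k z y = m k z x = m k x z`. So `k y y = m k x y = m^2 k x x`, and `Q k y x = (∑_{Br y x} k x z ^ 2) / k x x`; `V = Br x y ∪ Br y x`
disjointly (S_G2 (a)), `∑' z, k x z ^ 2 = k x x`. -/
def S_AD : Prop := ∀ (W V : Type) [Finite W] (B : SimpleGraph W) (C : Cover B V) (J : Jacobi B) (lam : ℝ)
  (k : V → V → ℝ), IsKer C J lam k → ∀ x y, C.G.Adj x y → k x x ≠ 0 → k y y ≠ 0 → Q C k x y + Q C k y x = 1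

open Classical in
/-- EN (35 min; deps S_G2, S_KS, S_GL). Minimal energy in a branch. `y` is a vertex where all solutions vanish, `x` a neighbour with `k x x ≠ 0`, the
branch of `x` is `Br y x`. For a solution `v` with `t = v x`: `w` = `v` on `Br y x`, `(t / k x x) k x` elsewhere, is a solution (S_GL), `w x = t`, so
`t^2 = (∑' k x z w z)^2 ≤ k x x ∑' w^2`; and `∑' w^2 = ∑_{Br y x} v^2 + (t / k x x)^2 ∑_{not Br y x} k x^2`,
`∑_{not Br y x} k x^2 = k x x - ∑_{Br y x} k x^2`. -/
def S_EN : Prop := ∀ (W V : Type) [Finite W] (B : SimpleGraph W) (C : Cover B V) (J : Jacobi B) (lam : ℝ)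
  (k : V → V → ℝ), IsKer C J lam k → ∀ x y, C.G.Adj y x → k y y = 0 → k x x ≠ 0 → ∀ v ∈ Sol C J lam,
    (v x / k x x) ^ 2 * (∑' z, if z ∈ Br C y x then k x z ^ 2 else 0) ≤ ∑' z, if z ∈ Br C y x then v z ^ 2 else 0

open Classical in
/-- FR (50 min; deps S_GU, S_G2, S_KS, S_EN). The inequality at a vertex `y` where all solutions vanish. `I` = neighbours `x` of `y` with `k x x ≠ 0`;
`a x = wt y x > 0`, `F x = (∑_{Br y x} k x z^2) / (k x x)^2` (at least 1: the term `z = x`), `E x = 1 / k x x`, `K x = E x - F x`; by S_G2 (a)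
`Q k x y = K x / E x`. The equation of a solution `v` at `y`: `∑_{x ∈ I} a x v x = 0` (`v y = 0`, `v x = 0` for the other neighbours). Fix `i ∈ I` and
`v = k i / k i i`, `t x = v x`, `t i = 1`. The branches `Br y x`, `x ∈ I`, are disjoint (S_GU at `y`), so `K i = ∑_{not Br y i} v^2 ≥ ∑_{x ≠ i} ∑_{Br y x} v^2 ≥
∑_{x ≠ i} t x ^2 F x` (S_EN). Cauchy-Schwarz: `a i ^2 = (∑_{x ≠ i} a x t x)^2 ≤ K i * (Σ - a i ^2 / F i)`, `Σ = ∑_{x ∈ I} a x ^2 / F x`. Hence
`K i / (K i + F i) ≥ (a i ^2 / F i) / Σ`, and the sum over `i ∈ I` is `≥ 1`. -/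
def S_FR : Prop := ∀ (W V : Type) [Finite W] (B : SimpleGraph W) (C : Cover B V) (J : Jacobi B) (lam : ℝ)
  (k : V → V → ℝ), IsKer C J lam k → ∀ y, k y y = 0 → (∃ x, C.G.Adj y x ∧ k x x ≠ 0) →
    1 ≤ ∑ x ∈ (C.N y).filter (fun x => k x x ≠ 0), Q C k x y

/-! ## The index inequality -/

open Classical in
/-- IX (60 min; deps S_DK, S_KS, S_IV, S_DE, S_AD, S_FR). `X` = the types `t` with a vertex `x` of type `t` with `k x x ≠ 0` (by S_DK and S_IV then
all vertices of type `t`). Choose `x_t` above `t ∈ X`, and for `s ∈ X`, `t ~ s` put `q s t = Q k x y` for any adjacent `x, y` of types `s, t` (S_DK, S_IV: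
independent of the choice). S_DE: `∑_{t ~ s} q s t = 1 - k x_s x_s < 1` for `s ∈ X`. S_AD: `q s t + q t s = 1` for adjacent `s, t ∈ X`. S_FR:
`∑_{s ~ t, s ∈ X} q s t ≥ 1` for `t ∉ X` with a neighbour in `X`. Summing the first over `s ∈ X`:
`2 |X| > 2 ∑_{s ∈ X} ∑_{t ~ s} q s t ≥ #{(s, t) ∈ X × X, s ~ t} + 2 |X^-|`. -/
def S_IX : Prop := ∀ (W V : Type) [Fintype W] (B : SimpleGraph W) (C : Cover B V) (J : Jacobi B) (lam : ℝ)
  (k : V → V → ℝ), IsKer C J lam k → ∀ X : Finset W, (∀ t, t ∈ X ↔ ∃ x, C.ty x = t ∧ k x x ≠ 0) → X.Nonempty →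
    ((X ×ˢ X).filter fun p => B.Adj p.1 p.2).card +
      2 * (Finset.univ.filter fun t => t ∉ X ∧ ∃ s ∈ X, B.Adj s t).card < 2 * X.card

open Classical in
/-- CN (25 min). Counting in `K_{r,g}`: let `α`, `β` be the numbers of red and green elements of `X`. If `α ≥ 1` and `β ≥ 1`: the left side is
`2 α β + 2 (r + g - α - β)` (everything else is adjacent to `X`), so `α β + r + g < 2 (α + β)`, impossible for `α ≤ r`, `β ≤ g`,
`2 ≤ g < r`. If `α = 0`, `β ≥ 1`: the left side is at least `2 r > 2 g ≥ 2 β`. -/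
def S_CN : Prop := ∀ (r g : ℕ), 2 ≤ g → g < r → ∀ X : Finset (Fin r ⊕ Fin g), (∃ j, Sum.inr j ∈ X) →
  2 * X.card ≤ ((X ×ˢ X).filter fun p : (Fin r ⊕ Fin g) × (Fin r ⊕ Fin g) =>
      (completeBipartiteGraph (Fin r) (Fin g)).Adj p.1 p.2).card +
    2 * (Finset.univ.filter fun t => t ∉ X ∧ ∃ s ∈ X, (completeBipartiteGraph (Fin r) (Fin g)).Adj s t).card

end Pool.Agent.T2H77.RG
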